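import Pool.Agent.P.MP_2668aa_co.Upper
import Pool.Agent.P.MP_2668aa_co.Lower

/-! Maximum Wiener index of a 2-connected graph of order `n` and maximum degree `Δ`. -/

namespace Pool.Agent.Results.MP_2668aa_co.MaxWiener

open Finset Pool.Agent.P.MP_2668aa_co

/-- `G` has at least three vertices, is connected, and `G - x` is connected for every `x`. -/
def TwoConnected {n : ℕ} (G : SimpleGraph (Fin n)) : Prop :=
  3 ≤ n ∧ G.Connected ∧ ∀ x : Fin n, (G.induce {y | y ≠ x}).Connected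

/-- The Wiener index: the sum of the distances over all unordered pairs of distinct vertices. -/
noncomputable def wiener {n : ℕ} (G : SimpleGraph (Fin n)) : ℕ :=
  ∑ u : Fin n, ∑ v : Fin n, if u < v then G.dist u v else 0

/-- The extremal value, with `m = n - Δ + 2`. -/
def maxValue (n Δ : ℕ) : ℕ :=
  if Δ = 2 then n * (n ^ 2 / 4) / 2
  else (n - Δ + 2) * ((n - Δ + 2) ^ 2 / 4) / 2 + (n - Δ + 3) ^ 2 / 4
    + (Δ - 3) * ((n - Δ + 2) ^ 2 / 4 + (n - Δ + 2) + (Δ - 3))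
    + (if n - Δ = 3 ∧ Δ ≠ 4 then 1 else 0)

lemma res_univ {n : ℕ} (G : SimpleGraph (Fin n)) : res G univ = G := by
  ext x y
  simp [res]

lemma two_wiener {n : ℕ} (G : SimpleGraph (Fin n)) : 2 * (wiener G : ℤ) = WS G univ := by
  unfold wiener WS wS dS
  rw [res_univ]
  push_cast
  have e1 : ∑ u : Fin n, ∑ v : Fin n, (if u < v then (G.dist u v : ℤ) else 0) =
      ∑ u : Fin n, ∑ v : Fin n, (if v < u then (G.dist u v : ℤ) else 0) := by
    rw [sum_comm]
    exact sum_congr rfl (fun u _ => sum_congr rfl (fun v _ => by rw [SimpleGraph.dist_comm]))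
  rw [two_mul]
  nth_rewrite 2 [e1]
  rw [← sum_add_distrib]
  refine sum_congr rfl (fun u _ => ?_)
  rw [← sum_add_distrib]
  refine sum_congr rfl (fun v _ => ?_)
  rcases lt_trichotomy u v with h | h | h
  · rw [if_pos h, if_neg (not_lt.2 h.le), add_zero]
  · subst h; simp
  · rw [if_pos h, if_neg (not_lt.2 h.le), zero_add]

lemma two_cyc (m : ℕ) : 2 * ((m * (m ^ 2 / 4) / 2 : ℕ) : ℤ) = m * D m := by
  have h : 2 ∣ m * (m ^ 2 / 4) := by
    obtain ⟨e, rfl | rfl⟩ := Nat.even_or_odd' m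
    · exact Dvd.dvd.mul_right (Dvd.intro _ rfl) _
    · rw [show (2 * e + 1) ^ 2 = 1 + 4 * (e * (e + 1)) by ring,
        Nat.add_mul_div_left _ _ (by norm_num)]
      exact Dvd.dvd.mul_left (by simpa using (Nat.even_mul_succ_self e).two_dvd) _
  have h2 := Nat.mul_div_cancel' h
  rw [D_eq_nat]
  exact_mod_cast h2

lemma two_maxValue (k m : ℕ) (hm : 3 ≤ m) : 2 * (maxValue (m + k) (k + 2) : ℤ) = T2 k m := by
  unfold maxValue
  by_cases hk : k = 0
  · subst hk
    rw [if_pos rfl, T2_zero _ rfl, add_zero, two_cyc]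
  · obtain ⟨j, rfl⟩ : ∃ j, k = j + 1 := ⟨k - 1, by omega⟩
    rw [if_neg (by omega), T2_pos _ hk, show m + (j + 1) - (j + 1 + 2) + 2 = m by omega,
      show m + (j + 1) - (j + 1 + 2) + 3 = m + 1 by omega, show j + 1 + 2 - 3 = j by omega]
    have a1 := two_cyc m
    have a2 := D_eq_nat m
    have a3 := D_eq_nat (m + 1)
    have a4 := D_succ m
    have a5 : hf (m + 1) + hf m = m := by unfold hf; omega
    have a6 : (((if m + (j + 1) - (j + 1 + 2) = 3 ∧ j + 1 + 2 ≠ 4 then 1 else 0 : ℕ)) : ℤ) =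
        eps (j + 1) m := by
      unfold eps
      split_ifs <;> omega
    rw [Nat.cast_add, Nat.cast_add, Nat.cast_add, a6, Nat.cast_mul, Nat.cast_add, Nat.cast_add,
      ← a2, ← a3]
    rw [Nat.cast_add, Nat.cast_one]
    linarith

lemma bset_iff {n : ℕ} (hn : 3 ≤ n) (G : SimpleGraph (Fin n)) :
    TwoConnected G ↔ BSet G univ := by
  constructor
  · rintro ⟨-, h1, h2⟩
    refine ⟨by simp; omega, fun x _ y _ => by rw [res_univ]; exact h1 x y, fun x a ha b hb => ?_⟩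
    let f : G.induce {y | y ≠ x} →g res G (univ.erase x) :=
      ⟨fun y => y.1, fun {a b} h => ⟨h, mem_erase.2 ⟨a.2, mem_univ _⟩,
        mem_erase.2 ⟨b.2, mem_univ _⟩⟩⟩
    exact (h2 x ⟨a, (mem_erase.1 ha).1⟩ ⟨b, (mem_erase.1 hb).1⟩).map f
  · rintro ⟨-, h1, h2⟩
    have : Nonempty (Fin n) := ⟨⟨0, by omega⟩⟩
    refine ⟨hn, ⟨fun x y => by
      have := h1 x (mem_univ _) y (mem_univ _)
      rwa [res_univ] at this⟩, fun x => ?_⟩
    have : Nontrivial (Fin n) := Fin.nontrivial_iff_two_le.2 (by omega)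
    have : Nonempty ↥{y : Fin n | y ≠ x} := by
      obtain ⟨y, hy⟩ := exists_ne x
      exact ⟨⟨y, hy⟩⟩
    refine ⟨fun a b => ?_⟩
    obtain ⟨p⟩ := h2 x a.1 (mem_erase.2 ⟨a.2, mem_univ _⟩) b.1 (mem_erase.2 ⟨b.2, mem_univ _⟩)
    have key : ∀ (u w : Fin n) (_ : (res G (univ.erase x)).Walk u w) (hu : u ≠ x) (hw : w ≠ x),
        (G.induce {y | y ≠ x}).Reachable ⟨u, hu⟩ ⟨w, hw⟩ := by
      intro u w q
      induction q with
      | nil => intro _ _; rfl
      | @cons u c w huc q ih =>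
        intro hu hw
        have hc : c ≠ x := (mem_erase.1 huc.2.2).1
        have : (G.induce {y | y ≠ x}).Adj ⟨u, hu⟩ ⟨c, hc⟩ := huc.1
        exact this.reachable.trans (ih hc hw)
    exact key _ _ p a.2 b.2

lemma upper_bound {n : ℕ} (hn : 3 ≤ n) (G : SimpleGraph (Fin n)) [DecidableRel G.Adj]
    (hB : BSet G univ) {k m : ℕ} (hd : G.maxDegree = k + 2) (hm : n = m + k) :
    WS G univ ≤ T2 k m := by
  have : Nonempty (Fin n) := ⟨⟨0, by omega⟩⟩
  obtain ⟨v, hv⟩ := G.exists_maximal_degree_vertex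
  refine upper univ hB v (mem_univ _) k m ?_ (by simpa using hm)
  rw [← hd, hv, ← SimpleGraph.card_neighborFinset_eq_degree]
  congr 1
  ext y
  simp [nb]

/-- For `n ≥ 3` and `2 ≤ Δ ≤ n - 1`, the largest Wiener index of a 2-connected graph of order
`n` and maximum degree `Δ` is `maxValue n Δ`. -/
theorem result (n Δ : ℕ) (hn : 3 ≤ n) (h2 : 2 ≤ Δ) (hΔ : Δ ≤ n - 1) :
    IsGreatest {w : ℕ | ∃ (G : SimpleGraph (Fin n)) (_ : DecidableRel G.Adj),
      TwoConnected G ∧ G.maxDegree = Δ ∧ wiener G = w} (maxValue n Δ) := by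
  obtain ⟨k, rfl⟩ : ∃ k, Δ = k + 2 := ⟨Δ - 2, by omega⟩
  obtain ⟨m, hm⟩ : ∃ m, n = m + k := ⟨n - k, by omega⟩
  have hm3 : 3 ≤ m := by omega
  have hv := two_maxValue k m hm3
  rw [← hm] at hv
  constructor
  · obtain ⟨N, rfl⟩ : ∃ N, n = N + 1 := ⟨n - 1, by omega⟩
    obtain ⟨G, inst, hB, hd, hW⟩ := lower N k m hm3 hm
    refine ⟨G, inst, (bset_iff hn G).2 hB, hd, ?_⟩
    have h1 := upper_bound hn G hB hd hm
    have h3 := two_wiener G
    omega
  · rintro w ⟨G, inst, hG, hd, rfl⟩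
    have h1 := upper_bound hn G ((bset_iff hn G).1 hG) hd hm
    have h3 := two_wiener G
    omega

end Pool.Agent.Results.MP_2668aa_co.MaxWiener
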